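import Pool.Agent.H77.PJC.Proof

/-! `MP_6f559f_gt`, Q1: the optimal constant `c(n, i)` in the harmonic mean projection inequality
is `1` for all `1 ≤ i ≤ n - 1`. -/

namespace Pool.Agent.Results.MP_6f559f_gt.ProjConst

open MeasureTheory Pool.H77.PJC

/-- For `n = i + m` with `i, m ≥ 1`: the optimal constant `c(n, i)` is `1`. -/
theorem result (i m : ℕ) (hi : 1 ≤ i) (hm : 1 ≤ m) :
    (∃ μ : Measure (Fin (i + m) → Fin (i + m) → ℝ), IsHaar μ) ∧
    ∀ μ : Measure (Fin (i + m) → Fin (i + m) → ℝ), IsHaar μ →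
      IsLeast {c : ℝ | 0 ≤ c ∧ Pool.H77.PJC.Holds μ c} 1 :=
  main i m hi hm

end Pool.Agent.Results.MP_6f559f_gt.ProjConst
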